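import Pool.Agent.Helper74.DR.St

/-!
# Project DR (MP_26f0da_lc): module SPL, left spines
-/

set_option autoImplicit false

namespace Pool.Agent.Helper27.DR

open Pool.Agent.Helper74.DR

variable {α V : Type} {L : V → Set (List α)}

private theorem ls_mul {X Y : V} {w : List α} (h : LS L X Y w) : ∀ u ∈ L Y, u ++ w ∈ L X := by
  induction h with
  | refl X =>
    intro u hu
    rw [List.append_nil]
    exact hu
  | step X Z B Y w₁ w₂ hp _ hw ih =>
    intro u hu
    rw [← List.append_assoc]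
    exact hp _ (ih u hu) _ hw

private theorem ls_nil (h0 : ∀ X, [] ∉ L X) {X Y : V} {w : List α} (h : LS L X Y w)
    (hw : w = []) : X = Y := by
  cases h with
  | refl => rfl
  | step X Z B Y w₁ w₂ hp _ hw2 =>
    have h2 : w₂ = [] := (List.append_eq_nil_iff.1 hw).2
    rw [h2] at hw2
    exact absurd hw2 (h0 B)

private theorem ls_single {X Y B : V} {b : List α} (hp : ∀ u ∈ L Y, ∀ v ∈ L B, u ++ v ∈ L X)
    (hb : b ∈ L B) : LS L X Y b := by
  have h := LS.step X Y B Y [] b hp (LS.refl Y) hb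
  rwa [List.nil_append] at h

private theorem snoc {X Z' : V} {m : List α} (h : LS L X Z' m) : ∀ (Y B : V) (b : List α),
    (∀ u ∈ L Y, ∀ v ∈ L B, u ++ v ∈ L Z') → b ∈ L B → LS L X Y (b ++ m) := by
  induction h with
  | refl X =>
    intro Y B b hp hb
    rw [List.append_nil]
    exact ls_single hp hb
  | step X Z C Z' w₁ w₂ hq _ hw ih =>
    intro Y B b hp hb
    rw [← List.append_assoc]
    exact LS.step X Z C Y (b ++ w₁) w₂ hq (ih Y B b hp hb) hw

private theorem first (h0 : ∀ X, [] ∉ L X) {X Y : V} {w : List α} (h : LS L X Y w) :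
    w ≠ [] → ∃ (B Z' : V) (b m : List α), w = b ++ m ∧ b ∈ L B ∧
      (∀ u ∈ L Y, ∀ v ∈ L B, u ++ v ∈ L Z') ∧ LS L X Z' m := by
  induction h with
  | refl X => exact fun h => absurd rfl h
  | step X Z B Y w₁ w₂ hp hls hw ih =>
    intro _
    by_cases h1 : w₁ = []
    · have hZ : Z = Y := ls_nil h0 hls h1
      subst hZ
      refine ⟨B, X, w₂, [], ?_, hw, hp, LS.refl X⟩
      rw [h1, List.nil_append, List.append_nil]
    · obtain ⟨B', Z', b, m, he, hb, hq, hm⟩ := ih h1
      refine ⟨B', Z', b, m ++ w₂, ?_, hb, hq, LS.step X Z B Z' m w₂ hp hm hw⟩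
      rw [he, List.append_assoc]

private theorem decomp (h0 : ∀ X, [] ∉ L X)
    (hB : ∀ X, ∀ w ∈ L X, 2 ≤ w.length → ∃ Y Z u v, w = u ++ v ∧ u ∈ L Y ∧ v ∈ L Z ∧
      ∀ u' ∈ L Y, ∀ v' ∈ L Z, u' ++ v' ∈ L X) (a : α) :
    ∀ (n : ℕ) (w : List α) (X : V), w.length ≤ n → a :: w ∈ L X → ∃ P, [a] ∈ L P ∧ LS L X P w := by
  intro n
  induction n with
  | zero =>
    intro w X hn hw
    have h1 : w = [] := List.length_eq_zero_iff.1 (Nat.le_zero.1 hn)
    subst h1
    exact ⟨X, hw, LS.refl X⟩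
  | succ n ih =>
    intro w X hn hw
    by_cases h1 : w = []
    · subst h1
      exact ⟨X, hw, LS.refl X⟩
    · have hl : 2 ≤ (a :: w).length := by
        have := List.length_pos_iff.2 h1
        rw [List.length_cons]
        omega
      obtain ⟨Y, Z, u, v, he, hu, hv, hp⟩ := hB X _ hw hl
      rcases u with _ | ⟨a', u'⟩
      · exact absurd hu (h0 Y)
      · rw [List.cons_append, List.cons.injEq] at he
        obtain ⟨rfl, rfl⟩ := he
        have hv0 : v ≠ [] := fun h => h0 Z (h ▸ hv)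
        have hvl := List.length_pos_iff.2 hv0
        rw [List.length_append] at hn
        obtain ⟨P, hP, hls⟩ := ih u' Y (by omega) hu
        exact ⟨P, hP, LS.step X Y Z P u' v hp hls hv⟩

theorem hSPL : StSPL := by
  intro α V L hBS
  obtain ⟨h0, hB⟩ := hBS
  refine ⟨fun X Y w h => ls_mul h, fun a w X h => decomp h0 hB a w.length w X le_rfl h, ?_⟩
  intro X Y w h hw
  cases h with
  | refl => exact absurd rfl hw
  | step X Z B Y w₁ w₂ hp hls hw2 =>
    by_cases h1 : w₁ = []
    · have hZ : Z = Y := ls_nil h0 hls h1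
      subst hZ
      left
      refine ⟨B, ?_, fun v hv => ls_single hp hv⟩
      rw [h1, List.nil_append]
      exact hw2
    · right
      obtain ⟨B', Z', b, m, he, hb, hq, hm⟩ := first h0 hls h1
      refine ⟨B', Z, Z', B, b, m, w₂, ?_, hb, hm, hw2, ?_⟩
      · rw [he, List.append_assoc]
      · intro v₁ hv₁ v₂ hv₂ v₃ hv₃
        rw [← List.append_assoc]
        exact LS.step X Z B Y (v₁ ++ v₂) v₃ hp (snoc hv₂ Y B' v₁ hq hv₁) hv₃

end Pool.Agent.Helper27.DR
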